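import Pool.Agent.Lib.H99K.Three

/-! # H99K, file Cost: number of generating words (MP_73a90e_al) -/

set_option autoImplicit false

namespace H99K

open Pool.H87G H99E

/-- For systems of rank `N` at most `m` words with values in `Fin B` generate the word of `b` bits. -/
def Gen (N B b m : ℕ) : Prop :=
  ∃ (I : Type) (_ : Fintype I), Fintype.card I ≤ m ∧ ∃ g : I → (Fin b → Bool) → Fin B,
    ∀ (Ω : Type) (K : Setoid Ω → Prop), Sys N K → ∀ x : Ω → Fin b → Bool,
      (∀ i, K (Setoid.ker fun z => g i (x z))) → K (Setoid.ker x)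

/-- For systems of rank `3` at most `m` words with six values join two known words of `b` bits. -/
def Cross (b m : ℕ) : Prop :=
  ∃ (I : Type) (_ : Fintype I), Fintype.card I ≤ m ∧ ∃ g : I → (Fin b → Bool) → (Fin b → Bool) → Fin 6,
    ∀ (Ω : Type) (K : Setoid Ω → Prop), Sys 3 K → ∀ x y : Ω → Fin b → Bool,
      K (Setoid.ker x) → K (Setoid.ker y) → (∀ i, K (Setoid.ker fun z => g i (x z) (y z))) →
      K (Setoid.ker x ⊓ Setoid.ker y)

theorem gen_mono {N B b m m' : ℕ} (h : Gen N B b m) (hm : m ≤ m') : Gen N B b m' := by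
  obtain ⟨I, hI, hc, h⟩ := h
  exact ⟨I, hI, hc.trans hm, h⟩

theorem gen_zero {N B : ℕ} (hB : 1 ≤ B) : Gen N B 0 1 := by
  refine ⟨Unit, inferInstance, by simp, fun _ _ => ⟨0, hB⟩, fun Ω K hK x h => ?_⟩
  refine hK.mono _ _ ?_ (h ())
  intro a b _
  exact funext fun t => t.elim0

theorem gen_le {N B b b' m : ℕ} (h : Gen N B b m) (hb : b' ≤ b) : Gen N B b' m := by
  obtain ⟨I, hI, hc, g, h⟩ := h
  obtain ⟨ex, hex⟩ : ∃ ex : (Fin b' → Bool) → Fin b → Bool,
      ex = fun (w : Fin b' → Bool) (t : Fin b) => if ht : (t : ℕ) < b' then w ⟨t, ht⟩ else false := ⟨_, rfl⟩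
  refine ⟨I, hI, hc, fun i w => g i (ex w), fun Ω K hK x hx => ?_⟩
  refine hK.mono _ _ ?_ (h Ω K hK (fun z => ex (x z)) hx)
  intro a c hac
  have hac' : ex (x a) = ex (x c) := hac
  refine funext fun t => ?_
  have h1 := congrFun hac' (Fin.castLE hb t)
  rw [hex] at h1
  simpa using h1

theorem gen_one : Gen 3 6 1 1 := by
  refine ⟨Unit, inferInstance, by simp, fun _ w => if w 0 then 1 else 0, fun Ω K hK x h => ?_⟩
  refine hK.mono _ _ ?_ (h ())
  intro a b hab
  have hab' : (if x a 0 then (1 : Fin 6) else 0) = if x b 0 then 1 else 0 := hab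
  refine funext fun t => ?_
  have ht : t = 0 := Subsingleton.elim _ _
  rw [ht]
  cases h1 : x a 0 <;> cases h2 : x b 0 <;> simp [h1, h2] at hab' ⊢

theorem gen_add {b m c : ℕ} (h : Gen 3 6 b m) (hc : Cross b c) : Gen 3 6 (b + b) (2 * m + c) := by
  obtain ⟨I, hI, hIc, g, h⟩ := h
  obtain ⟨J, hJ, hJc, g', h'⟩ := hc
  refine ⟨(I ⊕ I) ⊕ J, inferInstance, ?_, fun s w => s.elim (fun s => s.elim
    (fun i => g i fun t => w (Fin.castAdd b t)) (fun i => g i fun t => w (Fin.natAdd b t)))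
    (fun j => g' j (fun t => w (Fin.castAdd b t)) fun t => w (Fin.natAdd b t)), fun Ω K hK x hx => ?_⟩
  · simp only [Fintype.card_sum]
    omega
  · have h1 := h Ω K hK (fun z t => x z (Fin.castAdd b t)) fun i => hx (Sum.inl (Sum.inl i))
    have h2 := h Ω K hK (fun z t => x z (Fin.natAdd b t)) fun i => hx (Sum.inl (Sum.inr i))
    have h3 := h' Ω K hK _ _ h1 h2 fun j => hx (Sum.inr j)
    refine hK.mono _ _ ?_ h3
    rintro a c ⟨h4, h5⟩
    refine funext fun t => ?_
    refine Fin.addCases (fun t => ?_) (fun t => ?_) t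
    · exact congrFun h4 t
    · exact congrFun h5 t

/-- One more bit raises the rank. -/
theorem gen_succ {N B b m m' : ℕ} (h : Gen (N + 1) (B * 2) b m) (h' : Gen N B b m') :
    Gen (N + 1) (B * 2) (b + 1) (m + m') := by
  obtain ⟨I, hI, hIc, g, h⟩ := h
  obtain ⟨J, hJ, hJc, g', h'⟩ := h'
  obtain ⟨code, hcode⟩ : ∃ code : Fin B × Bool → Fin (B * 2), Function.Injective code := by
    obtain ⟨e⟩ := Function.Embedding.nonempty_of_card_le (α := Fin B × Bool) (β := Fin (B * 2)) (by simp)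
    exact ⟨e, e.injective⟩
  refine ⟨I ⊕ J, inferInstance, ?_, fun s w => s.elim (fun i => g i fun t => w (Fin.castSucc t))
    (fun j => code (g' j fun t => w (Fin.castSucc t), w (Fin.last b))), fun Ω K hK x hx => ?_⟩
  · rw [Fintype.card_sum]
    omega
  · have h1 := h Ω K hK (fun z t => x z (Fin.castSucc t)) fun i => hx (Sum.inl i)
    have h2 := h' (Fin b → Bool) (rel K (fun z t => x z (Fin.castSucc t)) fun z => x z (Fin.last b))
      (rel_sys hK _ h1) id (fun j => by
        refine hK.mono _ _ ?_ (hx (Sum.inr j))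
        intro a c hac
        have h3 := hcode hac
        rw [Prod.ext_iff] at h3
        exact ⟨h3.1, h3.2⟩)
    refine hK.mono _ _ ?_ h2
    rintro a c ⟨h4, h5⟩
    refine funext fun t => ?_
    refine Fin.lastCases ?_ (fun t => ?_) t
    · exact h5
    · exact congrFun h4 t

theorem gen_all {N B L M : ℕ} (hB : 1 ≤ B) (h : ∀ b, b ≤ L → Gen N B b M) :
    ∀ b, b ≤ L → Gen (N + 1) (B * 2) b (1 + b * M) := by
  intro b
  induction b with
  | zero =>
    intro _
    exact gen_mono (gen_zero (by omega)) (by omega)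
  | succ b ih =>
    intro hb
    have h1 := gen_succ (ih (by omega)) (h b (by omega))
    exact gen_mono h1 (le_of_eq (by ring))

/-- number of words for rank `j + 3` -/
def MM (L c : ℕ) : ℕ → ℕ
  | 0 => c
  | j + 1 => 1 + L * MM L c j

theorem gen_MM {L c : ℕ} (h : ∀ b, b ≤ L → Gen 3 6 b c) (j : ℕ) :
    ∀ b, b ≤ L → Gen (j + 3) (6 * 2 ^ j) b (MM L c j) := by
  induction j with
  | zero => simpa [MM] using h
  | succ j ih =>
    intro b hb
    have h0 := Nat.one_le_two_pow (n := j)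
    have h1 := gen_all (N := j + 3) (B := 6 * 2 ^ j) (L := L) (by omega) ih b hb
    have e1 : j + 1 + 3 = j + 3 + 1 := by ring
    have e2 : 6 * 2 ^ (j + 1) = 6 * 2 ^ j * 2 := by ring
    rw [e1, e2]
    refine gen_mono h1 ?_
    show 1 + b * MM L c j ≤ 1 + L * MM L c j
    have := Nat.mul_le_mul_right (MM L c j) hb
    omega

theorem MM_le {L c : ℕ} (hL : 1 ≤ L) (hc : 1 ≤ c) (j : ℕ) : 1 ≤ MM L c j ∧ MM L c j ≤ (2 * L) ^ j * c := by
  induction j with
  | zero => simpa [MM] using hc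
  | succ j ih =>
    obtain ⟨h1, h2⟩ := ih
    refine ⟨by show 1 ≤ 1 + L * MM L c j; omega, ?_⟩
    show 1 + L * MM L c j ≤ (2 * L) ^ (j + 1) * c
    have h3 : 1 ≤ L * MM L c j := Nat.one_le_iff_ne_zero.2 (by positivity)
    calc 1 + L * MM L c j ≤ 2 * L * MM L c j := by rw [mul_assoc]; omega
      _ ≤ 2 * L * ((2 * L) ^ j * c) := Nat.mul_le_mul_left _ h2
      _ = (2 * L) ^ (j + 1) * c := by ring

/-- The grid step. -/
theorem cross_cc (i : ℕ) : Cross (2 ^ i) (cc i) := by
  obtain ⟨m, hm⟩ : ∃ m, m = Nat.sqrt i + 1 := ⟨_, rfl⟩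
  obtain ⟨C, hCdef⟩ : ∃ C, C = 2 ^ m := ⟨_, rfl⟩
  have hC : 0 < C := by rw [hCdef]; positivity
  have hcc : cc i = (2 * C) ^ m * (m * C ^ 2 + 1) * (m * Nat.clog 2 C + 1) * 1 := by
    rw [hCdef, hm]
    rfl
  obtain ⟨e, he⟩ : ∃ e : (Fin m → Fin C) → Fin (m * Nat.clog 2 C) → Bool, Function.Injective e := by
    obtain ⟨e⟩ := Function.Embedding.nonempty_of_card_le (α := Fin m → Fin C)
      (β := Fin (m * Nat.clog 2 C) → Bool) (by
        simp only [Fintype.card_fun, Fintype.card_fin, Fintype.card_bool]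
        rw [mul_comm m, pow_mul]
        exact Nat.pow_le_pow_left (Nat.le_pow_clog (by norm_num) C) m)
    exact ⟨e, e.injective⟩
  obtain ⟨f, hf⟩ : ∃ f : Fin (2 ^ i) → Fin m → Fin C, Function.Injective f := by
    obtain ⟨f⟩ := Function.Embedding.nonempty_of_card_le (α := Fin (2 ^ i)) (β := Fin m → Fin C) (by
      simp only [Fintype.card_fun, Fintype.card_fin]
      rw [hCdef, ← pow_mul, hm]
      exact Nat.pow_le_pow_right (by norm_num) (Nat.lt_succ_sqrt i).le)
    exact ⟨f, f.injective⟩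
  obtain ⟨code, hcode⟩ : ∃ code : ZMod 3 × ZMod 2 → Fin 6, Function.Injective code := by
    obtain ⟨e⟩ := Function.Embedding.nonempty_of_card_le (α := ZMod 3 × ZMod 2) (β := Fin 6) (by simp [ZMod.card])
    exact ⟨e, e.injective⟩
  obtain ⟨ex, hex⟩ : ∃ ex : (Fin (2 ^ i) → Bool) → (Fin m → Fin C) → Bool,
      ex = fun w => Function.extend f w fun _ => false := ⟨_, rfl⟩
  have hexf : ∀ w t, ex w (f t) = w t := by
    intro w t
    rw [hex]
    exact hf.extend_apply w _ t
  refine ⟨(Fin m → Fin (2 * C)) × Fin (m * C ^ 2 + 1) × Option (Fin (m * Nat.clog 2 C)), inferInstance, ?_,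
    fun p w w' => code (ps hC e (fun c => p.1 c) p.2.1 p.2.2 (ex w), qs hC e (fun c => p.1 c) p.2.1 p.2.2 (ex w')),
    fun Ω K hK x y hx hy h => ?_⟩
  · rw [hcc]
    simp only [Fintype.card_prod, Fintype.card_fun, Fintype.card_fin, Fintype.card_option]
    exact le_of_eq (by ring)
  · refine join hK hx hy fun t s => ?_
    have hx' : K (Setoid.ker fun z => ex (x z)) := by
      refine hK.mono _ _ ?_ hx
      intro a b hab
      exact congrArg ex hab
    have hy' : K (Setoid.ker fun z => ex (y z)) := by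
      refine hK.mono _ _ ?_ hy
      intro a b hab
      exact congrArg ex hab
    have h1 := grid hC hK hx' hy' e he (fun s r o => by
      refine hK.mono _ _ ?_ (h (s, r, o))
      intro a b hab
      have h2 := hcode hab
      rw [Prod.ext_iff] at h2
      exact ⟨h2.1, h2.2⟩) (f t) (f s)
    refine hK.mono _ _ ?_ h1
    rintro a b ⟨h2, h3⟩
    have h2' : ex (x a) (f t) = ex (x b) (f t) := h2
    have h3' : ex (y a) (f s) = ex (y b) (f s) := h3
    rw [hexf, hexf] at h2' h3'
    exact ⟨h2', h3'⟩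

theorem gen_TT (i : ℕ) : Gen 3 6 (2 ^ i) (TT cc i) := by
  induction i with
  | zero => simpa [TT] using gen_one
  | succ i ih =>
    have h := gen_add ih (cross_cc i)
    have e : 2 ^ (i + 1) = 2 ^ i + 2 ^ i := by ring
    rw [e]
    exact h

end H99K
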