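import Pool.Agent.Lib.H99K.Levels
import Pool.Agent.Results.MP_73a90e_al.UnboundedLogFactor

/-! # H99K, file Example: the algebras `A_k` of `UnboundedLogFactor` have the level `k + 1` (MP_73a90e_al) -/

set_option autoImplicit false

namespace H99K

open Pool.H87G Pool.Agent.Results.MP_73a90e_al.UnboundedLogFactor

theorem alg_level {k : ℕ} (hk : 1 ≤ k) : Generates (Alg k) (H87L.Lev (k + 1)) := by
  classical
  intro S hS hX
  have hmiss : ∀ (j : Fin (k + 1)) (f : (Fin (k + 1) → Bool) → Bool),
      (∀ y z : Fin (k + 1) → Bool, (∀ i, i ≠ j → y i = z i) → f y = f z) → f ∈ S := fun j f h => hX ⟨j, h⟩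
  have hadd : ∀ f g : (Fin (k + 1) → Bool) → Bool, f ∈ S → g ∈ S → (fun z => xor (f z) (g z)) ∈ S := by
    intro f g hf hg
    exact hS add (Or.inr (Or.inl rfl)) (![f, g] : Fin 2 → (Fin (k + 1) → Bool) → Bool) (by
      intro (i : Fin 2)
      fin_cases i
      · exact hf
      · exact hg) (fun _ => Set.mem_univ _)
  apply Set.eq_univ_of_forall
  intro G
  refine H38P.of_points (hmiss 0 _ fun _ _ _ => rfl) hadd (fun q f hf => ?_) G
  have h1 := hS (prod k) (Or.inr (Or.inr rfl))
    (fun (j : Fin (Fintype.card (Sub k))) p => decide (∀ i ∈ ((Fintype.equivFin (Sub k)).symm j).1, p i = q i))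
    (fun j => by
      obtain ⟨i0, hi0⟩ : ∃ i0, i0 ∉ ((Fintype.equivFin (Sub k)).symm j).1 := by
        by_contra hcon
        push Not at hcon
        exact ((Fintype.equivFin (Sub k)).symm j).2.2 (Finset.eq_univ_iff_forall.2 hcon)
      refine hmiss i0 _ fun y z hyz => ?_
      rw [decide_eq_decide]
      have h2 : ∀ i ∈ ((Fintype.equivFin (Sub k)).symm j).1, y i = z i := fun i hi =>
        hyz i fun e => hi0 (e ▸ hi)
      constructor
      · intro h i hi
        rw [← h2 i hi]
        exact h i hi
      · intro h i hi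
        rw [h2 i hi]
        exact h i hi)
    (fun p => ⟨fun i => decide (p i = q i), fun T => by
      simp only [Equiv.symm_apply_apply, decide_eq_true_iff]⟩)
  have h2 : f = fun p => (prod k).fn fun j =>
      decide (∀ i ∈ ((Fintype.equivFin (Sub k)).symm j).1, p i = q i) := by
    funext p
    rw [Bool.eq_iff_iff, hf]
    show p = q ↔ decide (∀ j, decide (∀ i ∈ ((Fintype.equivFin (Sub k)).symm j).1, p i = q i) = true) = true
    simp only [decide_eq_true_iff]
    constructor
    · rintro rfl j i _
      rfl
    · intro h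
      funext i
      have hT : ({i} : Finset (Fin (k + 1))).Nonempty ∧ ({i} : Finset (Fin (k + 1))) ≠ Finset.univ := by
        refine ⟨Finset.singleton_nonempty i, fun e => ?_⟩
        have h3 := congrArg Finset.card e
        rw [Finset.card_singleton, Finset.card_univ, Fintype.card_fin] at h3
        omega
      have h4 := h (Fintype.equivFin (Sub k) ⟨{i}, hT⟩) i (by simp)
      exact h4
  rw [h2]
  exact h1

end H99K
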