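import Pool.Agent.Lib.H99K.Cost
import Pool.Agent.Lib.H99E.ExplicitGen
import Pool.Agent.Lib.H87L.Level

/-! # H99K, file Final: the bound for all levels (MP_73a90e_al) -/

set_option autoImplicit false

namespace H99K

open Pool.H87G H99E

theorem lrule_of {F : Set (POp Bool)} {N : ℕ} (hF : Generates F (H87L.Lev N)) {X : Type} {S : Set (X → Bool)}
    (hS : Closed F S) : LRule N S := by
  intro v hv G
  have h := hF {G | (fun z => G (fun l => v l z)) ∈ S} (closed_pull (fun z l => v l z) hS) (by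
    rintro G ⟨j, hj⟩
    exact hv G ⟨j, hj⟩)
  have h1 : G ∈ {G : (Fin N → Bool) → Bool | (fun z => G (fun l => v l z)) ∈ S} := by
    rw [h]
    trivial
  exact h1

theorem d_le {F : Set (POp Bool)} {N B b m n : ℕ} (hF : Generates F (H87L.Lev (N + 1))) (h : Gen (N + 1) B b m)
    (hn : n ≤ 2 ^ b) : d F n ≤ m * 2 ^ B := by
  classical
  obtain ⟨I, hI, hIc, g, h⟩ := h
  obtain ⟨e, he⟩ : ∃ e : Fin n → Fin b → Bool, Function.Injective e := by
    obtain ⟨e⟩ := Function.Embedding.nonempty_of_card_le (α := Fin n) (β := Fin b → Bool) (by simpa using hn)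
    exact ⟨e, e.injective⟩
  obtain ⟨X, hX⟩ : ∃ X : Finset (Fin n → Bool),
      X = Finset.univ.image (fun p : I × (Fin B → Bool) => fun t => p.2 (g p.1 (e t))) := ⟨_, rfl⟩
  have h1 : Generates F (X : Set (Fin n → Bool)) := by
    intro S hS hXS
    have hk := h (Fin n) (kn S) (base_sys (lrule_of hF hS)) e (fun i f hf => by
      have h2 : (fun t => decide (∃ t', g i (e t') = g i (e t) ∧ f t' = true)) = f := by
        funext t
        rw [Bool.eq_iff_iff, decide_eq_true_iff]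
        constructor
        · rintro ⟨t', h3, h4⟩
          rw [← hf t' t h3]
          exact h4
        · intro h3
          exact ⟨t, rfl, h3⟩
      rw [← h2]
      apply hXS
      rw [hX]
      simp only [Finset.coe_image, Finset.coe_univ, Set.image_univ, Set.mem_range]
      exact ⟨(i, fun y => decide (∃ t', g i (e t') = y ∧ f t' = true)), rfl⟩)
    apply Set.eq_univ_of_forall
    intro f
    exact hk f fun a b hab => by rw [he hab]
  calc d F n ≤ X.card := Nat.sInf_le ⟨_, rfl, h1⟩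
    _ ≤ Fintype.card (I × (Fin B → Bool)) := by
      rw [hX]
      exact Finset.card_image_le
    _ = Fintype.card I * 2 ^ B := by simp
    _ ≤ m * 2 ^ B := Nat.mul_le_mul_right _ hIc

/-- The analytic end. -/
theorem end_gen (F : Set (POp Bool)) (j c : ℕ)
    (hd : ∀ i n, n ≤ 2 ^ 2 ^ i → d F n ≤ c * ((2 * 2 ^ i) ^ j * (2 ^ i * 2 ^ (10 * Nat.sqrt i + 7)))) (n : ℕ)
    (hn : 2 ≤ n) : (d F n : ℝ) ≤
      c * 2 ^ (3 * j + 29) * Real.logb 2 n ^ (j + 1) * 2 ^ (10 * √(Real.logb 2 (Real.logb 2 n))) := by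
  obtain ⟨i, hi⟩ : ∃ i, i = Nat.clog 2 (Nat.clog 2 n) := ⟨_, rfl⟩
  have h1 : n ≤ 2 ^ 2 ^ i := by
    rw [hi]
    calc n ≤ 2 ^ Nat.clog 2 n := Nat.le_pow_clog (by norm_num) n
      _ ≤ 2 ^ 2 ^ Nat.clog 2 (Nat.clog 2 n) :=
        Nat.pow_le_pow_right (by norm_num) (Nat.le_pow_clog (by norm_num) _)
  have h2 := hd i n h1
  have h3 := two_pow_clog_le n hn
  rw [← hi] at h3
  have hl1 : 1 ≤ Real.logb 2 n := by
    rw [Real.le_logb_iff_rpow_le (by norm_num) (by exact_mod_cast (by omega : 0 < n)), Real.rpow_one]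
    exact_mod_cast hn
  obtain ⟨l, hl⟩ : ∃ l, l = Real.logb 2 (n : ℝ) := ⟨_, rfl⟩
  rw [← hl] at h3 hl1 ⊢
  have hLL : 0 ≤ Real.logb 2 l := Real.logb_nonneg (by norm_num) hl1
  have h4 : (i : ℝ) ≤ 2 + Real.logb 2 l := by
    have h5 : Real.logb 2 ((2 : ℝ) ^ i) ≤ Real.logb 2 (4 * l) :=
      Real.logb_le_logb_of_le (by norm_num) (by positivity) h3
    rw [Real.logb_pow, Real.logb_self_eq_one (by norm_num), mul_one,
      Real.logb_mul (by norm_num) (by linarith)] at h5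
    have h6 : Real.logb 2 4 = 2 := by
      rw [show (4 : ℝ) = 2 ^ (2 : ℕ) by norm_num, Real.logb_pow, Real.logb_self_eq_one (by norm_num)]
      norm_num
    linarith
  have h5 : ((Nat.sqrt i : ℕ) : ℝ) ≤ 2 + √(Real.logb 2 l) := by
    have h6 : ((Nat.sqrt i : ℕ) : ℝ) ^ 2 ≤ i := by
      have := Nat.sqrt_le i
      have h7 : ((Nat.sqrt i * Nat.sqrt i : ℕ) : ℝ) ≤ i := by exact_mod_cast this
      push_cast at h7
      nlinarith
    have h7 : 0 ≤ √(Real.logb 2 l) := Real.sqrt_nonneg _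
    have h8 : √(Real.logb 2 l) ^ 2 = Real.logb 2 l := Real.sq_sqrt hLL
    have h9 : ((Nat.sqrt i : ℕ) : ℝ) ^ 2 ≤ (2 + √(Real.logb 2 l)) ^ 2 := by nlinarith
    exact (pow_le_pow_iff_left₀ (Nat.cast_nonneg _) (by linarith) two_ne_zero).1 h9
  have h6 : (2 : ℝ) ^ (10 * Nat.sqrt i + 7) ≤ 2 ^ 27 * 2 ^ (10 * √(Real.logb 2 l)) := by
    rw [← Real.rpow_natCast, ← Real.rpow_natCast 2 27, ← Real.rpow_add (by norm_num)]
    refine Real.rpow_le_rpow_of_exponent_le (by norm_num) ?_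
    push_cast
    linarith
  have h7 : (2 * (2 : ℝ) ^ i) ^ j ≤ (8 * l) ^ j := pow_le_pow_left₀ (by positivity) (by linarith) j
  have h8 : (2 : ℝ) ^ (3 * j + 29) = 8 ^ j * (4 * 2 ^ 27) := by
    rw [pow_add, pow_mul]
    norm_num
  calc (d F n : ℝ) ≤ c * ((2 * (2 : ℝ) ^ i) ^ j * ((2 : ℝ) ^ i * 2 ^ (10 * Nat.sqrt i + 7))) := by
        exact_mod_cast h2
    _ ≤ c * ((8 * l) ^ j * ((4 * l) * (2 ^ 27 * 2 ^ (10 * √(Real.logb 2 l))))) := by
        refine mul_le_mul_of_nonneg_left ?_ (Nat.cast_nonneg c)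
        refine mul_le_mul h7 ?_ (by positivity) (by positivity)
        exact mul_le_mul h3 h6 (by positivity) (by linarith)
    _ = c * 2 ^ (3 * j + 29) * l ^ (j + 1) * 2 ^ (10 * √(Real.logb 2 l)) := by
        rw [h8, mul_pow]
        ring

theorem one_le_TT (i : ℕ) : 1 ≤ TT cc i := by
  induction i with
  | zero => simp [TT]
  | succ i ih =>
    show 1 ≤ 2 * TT cc i + cc i
    omega

/-- The bound for all families of the level `j + 3`. -/
theorem main {F : Set (POp Bool)} (j : ℕ) (hF : Generates F (H87L.Lev (j + 3))) (n : ℕ) (hn : 2 ≤ n) :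
    (d F n : ℝ) ≤ 2 ^ (6 * 2 ^ j + 3 * j + 29) * Real.logb 2 n ^ (j + 1) *
      2 ^ (10 * √(Real.logb 2 (Real.logb 2 n))) := by
  have h := end_gen F j (2 ^ (6 * 2 ^ j)) (fun i n hn => by
    have h1 := d_le (N := j + 2) hF (gen_MM (L := 2 ^ i) (c := TT cc i) (fun b hb => gen_le (gen_TT i) hb) j
      (2 ^ i) le_rfl) hn
    have h2 := (MM_le (L := 2 ^ i) (c := TT cc i) Nat.one_le_two_pow (one_le_TT i) j).2
    calc d F n ≤ MM (2 ^ i) (TT cc i) j * 2 ^ (6 * 2 ^ j) := h1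
      _ ≤ ((2 * 2 ^ i) ^ j * (2 ^ i * 2 ^ (10 * Nat.sqrt i + 7))) * 2 ^ (6 * 2 ^ j) :=
        Nat.mul_le_mul_right _ (h2.trans (Nat.mul_le_mul_left _ (TT_cc_le' i)))
      _ = 2 ^ (6 * 2 ^ j) * ((2 * 2 ^ i) ^ j * (2 ^ i * 2 ^ (10 * Nat.sqrt i + 7))) := mul_comm _ _) n hn
  refine h.trans (le_of_eq ?_)
  have e : (2 : ℝ) ^ (6 * 2 ^ j + 3 * j + 29) = 2 ^ (6 * 2 ^ j) * 2 ^ (3 * j + 29) := by
    rw [← pow_add, add_assoc]
  rw [e]
  push_cast
  rfl

end H99K
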