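import Pool.Agent.Lib.H99K.Final

/-! # H99K, file Levels: the levels are increasing (MP_73a90e_al) -/

set_option autoImplicit false

namespace H99K

open Pool.H87G H99E

theorem lev_mono {F : Set (POp Bool)} {M : ℕ} (hF : Generates F (H87L.Lev (M + 1))) :
    Generates F (H87L.Lev (M + 2)) := by
  intro S hS hX
  have hsys := base_sys (lrule_of hF hS)
  obtain ⟨v, hv⟩ : ∃ v : Fin (M + 1) → Setoid (Fin (M + 2) → Bool),
      v = fun i => Setoid.ker (fun a : Fin (M + 2) → Bool => (a i.succ, if i = 0 then a 0 else false)) := ⟨_, rfl⟩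
  have h1 := hsys.rule v (fun j f hf => by
    refine hX ⟨j.succ, fun y z hyz => hf y z ?_⟩
    intro i hi
    rw [hv]
    show (y i.succ, if i = 0 then y 0 else false) = (z i.succ, if i = 0 then z 0 else false)
    rw [hyz i.succ (fun e => hi (Fin.succ_injective _ e)), hyz 0 (Fin.succ_ne_zero j).symm])
  apply Set.eq_univ_of_forall
  intro f
  refine h1 f fun a b hab => ?_
  have h2 : ∀ i : Fin (M + 1), (a i.succ, if i = 0 then a 0 else false) = (b i.succ, if i = 0 then b 0 else false) := by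
    intro i
    have h3 := hab i trivial
    rw [hv] at h3
    exact h3
  have h3 : a = b := by
    funext t
    refine Fin.cases ?_ (fun i => ?_) t
    · have h4 := h2 0
      rw [Prod.ext_iff] at h4
      simpa using h4.2
    · have h4 := h2 i
      rw [Prod.ext_iff] at h4
      exact h4.1
  rw [h3]

/-- A small value of `d` gives a level `N ≥ 3`. -/
theorem level {F : Set (POp Bool)} {n : ℕ} (hn : 3 ≤ n) (hd : 2 * d F n < n) :
    ∃ N, 3 ≤ N ∧ Generates F (H87L.Lev N) := by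
  obtain ⟨N, hN, h⟩ := H87L.exists_level F hn hd
  obtain ⟨M, rfl⟩ : ∃ M, N = M + 1 := ⟨N - 1, by omega⟩
  exact ⟨M + 3, by omega, lev_mono (M := M + 1) (lev_mono h)⟩

theorem all :
    (∀ F : Set (POp Bool), ∀ N : ℕ, 3 ≤ N → Generates F (H87L.Lev N) → ∀ n : ℕ, 2 ≤ n →
      (d F n : ℝ) ≤ 2 ^ (6 * 2 ^ (N - 3) + 3 * (N - 3) + 29) * Real.logb 2 n ^ (N - 2) *
        2 ^ (10 * √(Real.logb 2 (Real.logb 2 n)))) ∧
    (∀ F : Set (POp Bool), (∀ n : ℕ, 3 ≤ n → n ≤ 2 * d F n) ∨ ∃ N : ℕ, 3 ≤ N ∧ Generates F (H87L.Lev N)) ∧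
    Generates H38P.Alg (H87L.Lev 3) := by
  refine ⟨fun F N hN hF n hn => ?_, fun F => ?_, H87L.alg_two⟩
  · obtain ⟨j, rfl⟩ : ∃ j, N = j + 3 := ⟨N - 3, by omega⟩
    have h := main j hF n hn
    have e1 : j + 3 - 3 = j := by omega
    have e2 : j + 3 - 2 = j + 1 := by omega
    rw [e1, e2]
    exact h
  · by_cases h : ∃ n, 3 ≤ n ∧ 2 * d F n < n
    · obtain ⟨n, hn, hd⟩ := h
      exact Or.inr (level hn hd)
    · push Not at h
      exact Or.inl h

end H99K
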