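import Pool.Agent.Lib.H87G.C1
import Pool.Agent.Lib.H87G.Api

/-! # H99K, file Sys: systems of known partitions (MP_73a90e_al)

`K r` says that the partition `r` of `Ω` is known. A system of rank `N`: if for each `j` the common refinement of the
`v i`, `i ≠ j`, is known, then the common refinement of `v 0, …, v (N - 1)` is known. -/

set_option autoImplicit false

namespace H99K

open Pool.H87G

/-- the common refinement of the `v i` with `p i` -/
def meet {Ω ι : Type} (v : ι → Setoid Ω) (p : ι → Prop) : Setoid Ω where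
  r a b := ∀ i, p i → v i a b
  iseqv := ⟨fun a i _ => (v i).refl a, fun h i hi => (v i).symm (h i hi),
    fun h h' i hi => (v i).trans (h i hi) (h' i hi)⟩

theorem meet_iff {Ω ι : Type} (v : ι → Setoid Ω) (p : ι → Prop) (a b : Ω) :
    meet v p a b ↔ ∀ i, p i → v i a b := Iff.rfl

structure Sys (N : ℕ) {Ω : Type} (K : Setoid Ω → Prop) : Prop where
  mono : ∀ r s : Setoid Ω, (∀ a b, r a b → s a b) → K r → K s
  rule : ∀ v : Fin N → Setoid Ω, (∀ j, K (meet v fun i => i ≠ j)) → K (meet v fun _ => True)

/-- known relative to the bit `w`, for functions of `x` -/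
def rel {Ω X : Type} (K : Setoid Ω → Prop) (x : Ω → X) (w : Ω → Bool) : Setoid X → Prop :=
  fun r => K (r.comap x ⊓ Setoid.ker w)

theorem rel_sys {N : ℕ} {Ω X : Type} {K : Setoid Ω → Prop} (hK : Sys (N + 1) K) {x : Ω → X} (w : Ω → Bool)
    (hx : K (Setoid.ker x)) : Sys N (rel K x w) := by
  constructor
  · intro r s hrs h
    refine hK.mono _ _ (fun a b hab => ?_) h
    rw [Setoid.inf_iff_and, Setoid.comap_rel] at hab ⊢
    exact ⟨hrs _ _ hab.1, hab.2⟩
  · intro v hv
    have h := hK.rule (Fin.cons (Setoid.ker w) fun i => (v i).comap x) (fun j => ?_)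
    · refine hK.mono _ _ (fun a b hab => ?_) h
      rw [Setoid.inf_iff_and, Setoid.comap_rel]
      refine ⟨fun i _ => ?_, ?_⟩
      · have := hab i.succ trivial
        rwa [Fin.cons_succ, Setoid.comap_rel] at this
      · have := hab 0 trivial
        rwa [Fin.cons_zero] at this
    · refine Fin.cases ?_ (fun j' => ?_) j
      · refine hK.mono _ _ (fun a b hab i => ?_) hx
        refine Fin.cases (fun h0 => absurd rfl h0) (fun i' _ => ?_) i
        rw [Fin.cons_succ, Setoid.comap_rel, Setoid.ker_def.1 hab]
      · refine hK.mono _ _ (fun a b hab i => ?_) (hv j')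
        rw [Setoid.inf_iff_and, Setoid.comap_rel] at hab
        refine Fin.cases (fun _ => ?_) (fun i' hi => ?_) i
        · rw [Fin.cons_zero]
          exact hab.2
        · rw [Fin.cons_succ, Setoid.comap_rel]
          exact hab.1 i' fun e => hi (by rw [e])

theorem tri {Ω : Type} {K : Setoid Ω → Prop} (hK : Sys 3 K) {a b c : Setoid Ω} (h1 : K (a ⊓ b)) (h2 : K (a ⊓ c))
    (h3 : K (b ⊓ c)) : K (a ⊓ b ⊓ c) := by
  have h := hK.rule ![a, b, c] (fun j => ?_)
  · refine hK.mono _ _ ?_ h
    intro x y hxy
    exact ⟨⟨hxy 0 trivial, hxy 1 trivial⟩, hxy 2 trivial⟩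
  · have key : ∀ r : Setoid Ω, K r → (∀ x y, r x y → ∀ i, i ≠ j → (![a, b, c] : Fin 3 → Setoid Ω) i x y) →
        K (meet ![a, b, c] fun i => i ≠ j) := fun r hr h => hK.mono _ _ (fun x y hxy i hi => h x y hxy i hi) hr
    fin_cases j
    · refine key _ h3 fun x y hxy i hi => ?_
      obtain ⟨h4, h5⟩ := hxy
      fin_cases i
      · exact absurd rfl hi
      · exact h4
      · exact h5
    · refine key _ h2 fun x y hxy i hi => ?_
      obtain ⟨h4, h5⟩ := hxy
      fin_cases i
      · exact h4
      · exact absurd rfl hi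
      · exact h5
    · refine key _ h1 fun x y hxy i hi => ?_
      obtain ⟨h4, h5⟩ := hxy
      fin_cases i
      · exact h4
      · exact h5
      · exact absurd rfl hi

/-- the system of a family of Boolean functions -/
def kn {Ω : Type} (V : Set (Ω → Bool)) : Setoid Ω → Prop :=
  fun r => ∀ f : Ω → Bool, (∀ a b, r a b → f a = f b) → f ∈ V

theorem base_sys {Ω : Type} [Finite Ω] {M : ℕ} {V : Set (Ω → Bool)} (hV : LRule (M + 1) V) :
    Sys (M + 1) (kn V) := by
  classical
  constructor
  · intro r s hrs h f hf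
    exact h f fun a b hab => hf a b (hrs a b hab)
  · intro v hv f hf
    obtain ⟨F0, hF0⟩ : ∃ F0 : Set (Ω → Bool), F0 = {f | ∃ i, ∀ a b, v i a b → f a = f b} := ⟨_, rfl⟩
    have hne : F0.Nonempty := ⟨fun _ => true, by rw [hF0]; exact ⟨0, fun _ _ _ => rfl⟩⟩
    have hPi : PiProp (M + 1) V F0 := by
      rintro u hu G ⟨j, hj⟩
      rw [hF0] at hu
      choose σ hσ using hu
      obtain ⟨j', hj'⟩ : ∃ j' : Fin (M + 1), ∀ i, i ≠ j → σ i ≠ j' := by
        by_contra hcon
        push Not at hcon
        have hsurj : Function.Surjective fun i : {i : Fin (M + 1) // i ≠ j} => σ i := by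
          intro j'
          obtain ⟨i, hi, h⟩ := hcon j'
          exact ⟨⟨i, hi⟩, h⟩
        have h1 := Fintype.card_le_of_surjective _ hsurj
        rw [Fintype.card_subtype_compl, Fintype.card_fin, Fintype.card_subtype_eq] at h1
        omega
      refine hv j' _ fun a b hab => ?_
      apply hj
      intro i hi
      exact hσ i a b (hab (σ i) (hj' i hi))
    have : Fintype F0 := Fintype.ofFinite _
    obtain ⟨en⟩ : Nonempty (Fin (Fintype.card F0) ≃ F0) := ⟨(Fintype.equivFin _).symm⟩
    obtain ⟨w, hw⟩ : ∃ w : Ω → Fin (Fintype.card F0) → Bool, w = fun z i => (en i).1 z := ⟨_, rfl⟩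
    have hfac : ∀ a b, w a = w b → f a = f b := by
      intro a b hab
      apply hf
      intro i _
      have h1 : (fun z => decide (v i a z)) ∈ F0 := by
        rw [hF0]
        refine ⟨i, fun x y hxy => ?_⟩
        rw [decide_eq_decide]
        exact ⟨fun h => (v i).trans h hxy, fun h => (v i).trans h ((v i).symm hxy)⟩
      have h2 := congrFun hab (en.symm ⟨_, h1⟩)
      rw [hw] at h2
      simp only [Equiv.apply_symm_apply] at h2
      rw [decide_eq_decide] at h2
      exact h2.1 ((v i).refl a)
    have h1 := C1 (r := M + 1) (by omega) V hV F0 hne hPi (Fintype.card F0) (fun i z => w z i) (fun i => by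
      rw [hw]
      exact (en i).2) (fun y => decide (∃ z, w z = y ∧ f z = true))
    have e : (fun z => decide (∃ z', w z' = (fun i => w z i) ∧ f z' = true)) = f := by
      funext z
      rw [Bool.eq_iff_iff, decide_eq_true_iff]
      constructor
      · rintro ⟨z', h2, h3⟩
        rw [← hfac z' z h2]
        exact h3
      · intro h3
        exact ⟨z, rfl, h3⟩
    rw [← e]
    exact h1

end H99K
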