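import Pool.Agent.Lib.H99K.Sys
import Pool.Agent.Lib.H99E.Bi
import Pool.Agent.Lib.H99E.Explicit

/-! # H99K, file Three: systems of rank 3 (MP_73a90e_al) -/

set_option autoImplicit false

namespace H99K

open Pool.H87G H99E

variable {Ω : Type} {K : Setoid Ω → Prop}

/-- letters of `x` in `S` -/
def let' {Ω ι : Type} (x : Ω → ι → Bool) (S : Finset ι) : Setoid Ω := meet (fun t => Setoid.ker fun z => x z t) (· ∈ S)

theorem let_iff {Ω ι : Type} (x : Ω → ι → Bool) (S : Finset ι) (a b : Ω) :
    let' x S a b ↔ ∀ t ∈ S, x a t = x b t := Iff.rfl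

/-- Words with pairwise known letters are known together. -/
theorem join {ι κ : Type} [Fintype ι] [Fintype κ] (hK : Sys 3 K) {x : Ω → ι → Bool} {y : Ω → κ → Bool}
    (hx : K (Setoid.ker x)) (hy : K (Setoid.ker y))
    (h : ∀ t s, K (Setoid.ker (fun z => x z t) ⊓ Setoid.ker fun z => y z s)) : K (Setoid.ker x ⊓ Setoid.ker y) := by
  classical
  have A : ∀ s, ∀ S : Finset ι, K (let' x S ⊓ Setoid.ker fun z => y z s) := by
    intro s S
    induction S using Finset.induction with
    | empty =>
      refine hK.mono _ _ ?_ hy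
      intro a b hab
      exact ⟨fun t ht => absurd ht (Finset.notMem_empty t), congrFun hab s⟩
    | insert t S _ ih =>
      have h1 : K (let' x S ⊓ Setoid.ker fun z => x z t) := by
        refine hK.mono _ _ ?_ hx
        intro a b hab
        exact ⟨fun t _ => congrFun hab t, congrFun hab t⟩
      have h2 := tri hK h1 ih (h t s)
      refine hK.mono _ _ ?_ h2
      rintro a b ⟨⟨h3, h4⟩, h5⟩
      refine ⟨fun t' ht' => ?_, h5⟩
      rcases Finset.mem_insert.1 ht' with rfl | ht'
      · exact h4
      · exact h3 t' ht'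
  have B : ∀ S : Finset κ, K (Setoid.ker x ⊓ let' y S) := by
    intro S
    induction S using Finset.induction with
    | empty =>
      refine hK.mono _ _ ?_ hx
      intro a b hab
      exact ⟨hab, fun t ht => absurd ht (Finset.notMem_empty t)⟩
    | insert s S _ ih =>
      have h1 : K (Setoid.ker x ⊓ Setoid.ker fun z => y z s) := by
        refine hK.mono _ _ ?_ (A s Finset.univ)
        rintro a b ⟨h1, h2⟩
        exact ⟨funext fun t => h1 t (Finset.mem_univ t), h2⟩
      have h2 : K (let' y S ⊓ Setoid.ker fun z => y z s) := by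
        refine hK.mono _ _ ?_ hy
        intro a b hab
        exact ⟨fun t _ => congrFun hab t, congrFun hab s⟩
      refine hK.mono _ _ ?_ (tri hK ih h1 h2)
      rintro a b ⟨⟨h3, h4⟩, h5⟩
      refine ⟨h3, fun t' ht' => ?_⟩
      rcases Finset.mem_insert.1 ht' with rfl | ht'
      · exact h5
      · exact h4 t' ht'
  refine hK.mono _ _ ?_ (B Finset.univ)
  rintro a b ⟨h1, h2⟩
  exact ⟨h1, funext fun t => h2 t (Finset.mem_univ t)⟩

/-- known pairs of a function of `x` and a function of `y` -/
def Rel {X Y : Type} (K : Setoid Ω → Prop) (x : Ω → X) (y : Ω → Y) (p : X → ZMod 3) (q : Y → ZMod 2) : Prop :=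
  K (Setoid.ker (fun z => p (x z)) ⊓ Setoid.ker fun z => q (y z))

theorem bi_rel {X Y : Type} (hK : Sys 3 K) {x : Ω → X} {y : Ω → Y} (hx : K (Setoid.ker x)) (hy : K (Setoid.ker y)) :
    Bi (Rel K x y) := by
  constructor
  · intro p p' q h1 h2
    have h0 : K (Setoid.ker (fun z => p (x z)) ⊓ Setoid.ker fun z => p' (x z)) := by
      refine hK.mono _ _ ?_ hx
      intro a b hab
      exact ⟨congrArg p hab, congrArg p' hab⟩
    refine hK.mono _ _ ?_ (tri hK h0 h1 h2)
    rintro a b ⟨⟨h3, h4⟩, h5⟩
    refine ⟨?_, h5⟩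
    show p (x a) - p' (x a) = p (x b) - p' (x b)
    rw [Setoid.ker_def.1 h3, Setoid.ker_def.1 h4]
  · intro p q q' h1 h2
    have h0 : K (Setoid.ker (fun z => q (y z)) ⊓ Setoid.ker fun z => q' (y z)) := by
      refine hK.mono _ _ ?_ hy
      intro a b hab
      exact ⟨congrArg q hab, congrArg q' hab⟩
    refine hK.mono _ _ ?_ (tri hK h1 h2 h0)
    rintro a b ⟨⟨h3, h4⟩, h5⟩
    refine ⟨h3, ?_⟩
    show q (y a) - q' (y a) = q (y b) - q' (y b)
    rw [Setoid.ker_def.1 h4, Setoid.ker_def.1 h5]
  · intro q
    refine hK.mono _ _ ?_ hy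
    intro a b hab
    exact ⟨rfl, congrArg q hab⟩
  · intro p
    refine hK.mono _ _ ?_ hx
    intro a b hab
    exact ⟨congrArg p hab, rfl⟩

open Classical in
/-- the letter `m` if `m` is in the class -/
noncomputable def pm {k C : ℕ} (hC : 0 < C) (s : Fin k → ℕ) (r : ℕ) (m : Fin k → Fin C)
    (w : (Fin k → Fin C) → Bool) : ZMod 3 := if Val hC s r m ∧ w m = true then 1 else 0

open Classical in
/-- the letter `s - m` if `m` is in the class -/
noncomputable def qm {k C : ℕ} (hC : 0 < C) (s : Fin k → ℕ) (r : ℕ) (m : Fin k → Fin C)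
    (w : (Fin k → Fin C) → Bool) : ZMod 2 := if Val hC s r m ∧ w (opp hC s m) = true then 1 else 0

open Classical in
/-- sums over the part `o` of the class `(s, r)` -/
noncomputable def ps {k C n : ℕ} (hC : 0 < C) (e : (Fin k → Fin C) → Fin n → Bool) (s : Fin k → ℕ) (r : ℕ)
    (o : Option (Fin n)) : ((Fin k → Fin C) → Bool) → ZMod 3 :=
  ∑ m with (∀ p ∈ o, e m p = true), pm hC s r m

open Classical in
noncomputable def qs {k C n : ℕ} (hC : 0 < C) (e : (Fin k → Fin C) → Fin n → Bool) (s : Fin k → ℕ) (r : ℕ)
    (o : Option (Fin n)) : ((Fin k → Fin C) → Bool) → ZMod 2 :=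
  ∑ m with (∀ p ∈ o, e m p = true), qm hC s r m

theorem one_if {α : Type} [Zero α] [One α] [NeZero (1 : α)] {P Q : Prop} [Decidable P] [Decidable Q]
    (h : (if P then (1 : α) else 0) = if Q then 1 else 0) : P ↔ Q := by
  by_cases hP : P <;> by_cases hQ : Q <;> simp_all

theorem grid {k C n : ℕ} (hC : 0 < C) (hK : Sys 3 K) {x y : Ω → (Fin k → Fin C) → Bool}
    (hx : K (Setoid.ker x)) (hy : K (Setoid.ker y)) (e : (Fin k → Fin C) → Fin n → Bool)
    (he : Function.Injective e)
    (h : ∀ (s : Fin k → Fin (2 * C)) (r : Fin (k * C ^ 2 + 1)) (o : Option (Fin n)),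
      Rel K x y (ps hC e (fun c => s c) r o) (qs hC e (fun c => s c) r o))
    (i j : Fin k → Fin C) : K (Setoid.ker (fun z => x z i) ⊓ Setoid.ker fun z => y z j) := by
  classical
  have hbi := bi_rel hK hx hy
  have main : ∀ N : ℕ, ∀ i j : Fin k → Fin C, D i j = N →
      K (Setoid.ker (fun z => x z i) ⊓ Setoid.ker fun z => y z j) := by
    intro N
    induction N using Nat.strong_induction_on with
    | _ N ih =>
      intro i j hN
      obtain ⟨hopp, hval⟩ := val_of hC i j hN
      obtain ⟨s, hs⟩ : ∃ s : Fin k → ℕ, s = fun c => (i c : ℕ) + (j c : ℕ) := ⟨_, rfl⟩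
      rw [← hs] at hopp hval
      have hN' : N < k * C ^ 2 + 1 := by
        have h1 := D_le i j
        rw [hN] at h1
        have : N ≤ k * C ^ 2 := by exact_mod_cast h1
        omega
      have hsl : ∀ c, s c < 2 * C := by
        intro c
        rw [hs]
        have := (i c).2
        have := (j c).2
        show (i c : ℕ) + (j c : ℕ) < 2 * C
        omega
      have hgen : ∀ o : Option (Fin n), Rel K x y (ps hC e s N o) (qs hC e s N o) := by
        intro o
        exact h (fun c => ⟨s c, hsl c⟩) ⟨N, hN'⟩ o
      have hcross : ∀ m l, m ≠ l → Rel K x y (pm hC s N m) (qm hC s N l) := by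
        intro m l hml
        by_cases h1 : Val hC s N m
        · by_cases h2 : Val hC s N l
          · have h3 := D_cross hC h1 h2 hml
            obtain ⟨N', hN'⟩ : ∃ N' : ℕ, D m (opp hC s l) = N' := ⟨_, (Int.toNat_of_nonneg (D_nonneg _ _)).symm⟩
            have h4 : N' < N := by
              rw [hN'] at h3
              exact_mod_cast h3
            refine hK.mono _ _ ?_ (ih N' h4 _ _ hN')
            rintro a b ⟨h5, h6⟩
            have h5' : x a m = x b m := h5
            have h6' : y a (opp hC s l) = y b (opp hC s l) := h6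
            refine ⟨?_, ?_⟩
            · show pm hC s N m (x a) = pm hC s N m (x b)
              simp only [pm, h5']
            · show qm hC s N l (y a) = qm hC s N l (y b)
              simp only [qm, h6']
          · have h3 : qm hC s N l = 0 := by
              funext w
              simp [qm, h2]
            rw [h3]
            exact hbi.zeror _
        · have h3 : pm hC s N m = 0 := by
            funext w
            simp [pm, h1]
          rw [h3]
          exact hbi.zerol _
      have h0 := hgen none
      have hp := fun p => hgen (some p)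
      have hres := hbi.ring_main (fun p => by funext w; exact (by decide : ∀ a : ZMod 3, a + a + a = 0) (p w))
        (fun q => by funext w; exact (by decide : ∀ a : ZMod 2, a + a = 0) (q w)) hcross e he
        (by simpa [ps, qs] using h0) (by
          intro p
          simpa [ps, qs] using hp p) i
      refine hK.mono _ _ ?_ hres
      rintro a b ⟨h5, h6⟩
      have h5' : pm hC s N i (x a) = pm hC s N i (x b) := h5
      have h6' : qm hC s N i (y a) = qm hC s N i (y b) := h6
      refine ⟨?_, ?_⟩
      · show x a i = x b i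
        have h7 := one_if h5'
        simp only [hval, true_and] at h7
        exact Bool.eq_iff_iff.2 h7
      · show y a j = y b j
        have h7 := one_if h6'
        simp only [hval, true_and, hopp] at h7
        exact Bool.eq_iff_iff.2 h7
  obtain ⟨N, hN⟩ : ∃ N : ℕ, D i j = N := ⟨_, (Int.toNat_of_nonneg (D_nonneg _ _)).symm⟩
  exact main N i j hN

end H99K
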